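import Pool.Agent.Lib.MP_17bc6d_lc.Transfer

set_option autoImplicit false

namespace Pool.Agent.Results.MP_17bc6d_lc.PartitionRelation

open Ordinal Set

universe u

/-- The set `H` of ordinals has order type `β`. -/
def HasOrderType (H : Set Ordinal.{u}) (β : Ordinal.{u}) : Prop :=
  Nonempty (Set.Iio β ≃o H)

/-- `[α]²`: the two-element sets of ordinals less than `α`. -/
abbrev Pairs (α : Ordinal.{u}) : Type (u + 1) :=
  {p : Finset Ordinal.{u} // p.card = 2 ∧ ∀ x ∈ p, x < α}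

/-- The partition relation `α → (β, γ₁, …, γ_k)²`. -/
def Arrow (α β : Ordinal.{u}) (k : ℕ) (γ : Fin k → Ordinal.{u}) : Prop :=
  ∀ c : Pairs α → Fin (k + 1),
    (∃ H : Set Ordinal.{u}, H ⊆ Set.Iio α ∧ HasOrderType H β ∧
      ∀ p : Pairs α, (p.1 : Set Ordinal.{u}) ⊆ H → c p = 0) ∨
    (∃ (i : Fin k) (H : Set Ordinal.{u}), H ⊆ Set.Iio α ∧ HasOrderType H (γ i) ∧
      ∀ p : Pairs α, (p.1 : Set Ordinal.{u}) ⊆ H → c p = i.succ)

/-- For every `k ≥ 0`, `ω₁² → (ω₁·ω, 3, …, 3)²` with `k` entries `3`. -/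
theorem result (k : ℕ) :
    Arrow.{u} (Ordinal.omega.{u} 1 ^ 2) (Ordinal.omega.{u} 1 * Ordinal.omega0.{u}) k (fun _ => 3) := by
  classical
  have hω : Ordinal.omega.{u} 1 = Ordinal.lift.{u, 0} ((Cardinal.aleph 1).ord) := by
    rw [Cardinal.ord_aleph, Ordinal.lift_omega, Ordinal.lift_one]
  have h0 : Ordinal.omega0.{u} = Ordinal.lift.{u, 0} Ordinal.omega0.{0} := by
    rw [Ordinal.lift_omega0]
  rw [sq, hω, h0, ← Ordinal.lift_mul, ← Ordinal.lift_mul]
  set A : Ordinal.{0} := (Cardinal.aleph 1).ord * (Cardinal.aleph 1).ord with hA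
  set B : Ordinal.{0} := (Cardinal.aleph 1).ord * Ordinal.omega0 with hB
  intro c
  have hpair : ∀ a b : Ordinal.{0}, a ≠ b → a < A → b < A →
      (({Ordinal.lift.{u, 0} a, Ordinal.lift.{u, 0} b} : Finset Ordinal.{u}).card = 2 ∧
        ∀ x ∈ ({Ordinal.lift.{u, 0} a, Ordinal.lift.{u, 0} b} : Finset Ordinal.{u}),
          x < Ordinal.lift.{u, 0} A) := by
    intro a b hab ha hb
    constructor
    · exact Finset.card_pair (fun h => hab (Ordinal.lift_inj.1 h))
    · intro x hx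
      rcases Finset.mem_insert.1 hx with rfl | hx
      · exact Ordinal.lift_lt.2 ha
      · rw [Finset.mem_singleton.1 hx]
        exact Ordinal.lift_lt.2 hb
  let c' : Ordinal.{0} → Ordinal.{0} → Fin (k + 1) := fun a b =>
    if h : a ≠ b ∧ a < A ∧ b < A then c ⟨_, hpair a b h.1 h.2.1 h.2.2⟩ else 0
  have hc' : ∀ (a b : Ordinal.{0}) (h1 : a ≠ b) (h2 : a < A) (h3 : b < A) (p : Pairs (Ordinal.lift.{u, 0} A)),
      p.1 = {Ordinal.lift.{u, 0} a, Ordinal.lift.{u, 0} b} → c p = c' a b := by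
    intro a b h1 h2 h3 p hp
    change c p = if h : a ≠ b ∧ a < A ∧ b < A then c ⟨_, hpair a b h.1 h.2.1 h.2.2⟩ else 0
    rw [dif_pos ⟨h1, h2, h3⟩]
    congr 1
    exact Subtype.ext hp
  rcases Pool.Agent.Lib.MP_17bc6d_lc.main k c' with ⟨f, hf1, hf2, hf3⟩ | ⟨i, hi, a, b, d, hab, hbd, hd, e1, e2, e3⟩
  · left
    let g : Set.Iio B → Ordinal.{u} := fun x => Ordinal.lift.{u, 0} (f x)
    have hg : StrictMono g := fun x y hxy => Ordinal.lift_lt.2 (hf1 x.2 y.2 hxy)
    let l : Set.Iio B → Set.Iio (Ordinal.lift.{u, 0} B) := fun x =>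
      ⟨Ordinal.lift.{u, 0} x, Ordinal.lift_lt.2 x.2⟩
    have hl : StrictMono l := fun x y hxy => Ordinal.lift_lt.2 hxy
    have hls : Function.Surjective l := by
      rintro ⟨y, hy⟩
      obtain ⟨x, hx⟩ := Ordinal.mem_range_lift_of_le (le_of_lt hy)
      refine ⟨⟨x, ?_⟩, Subtype.ext hx⟩
      rw [Set.mem_Iio] at hy ⊢
      rw [← hx] at hy
      exact Ordinal.lift_lt.1 hy
    refine ⟨Set.range g, ?_, ⟨(StrictMono.orderIsoOfSurjective l hl hls).symm.trans (StrictMono.orderIso g hg)⟩, ?_⟩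
    · rintro _ ⟨x, rfl⟩
      exact Ordinal.lift_lt.2 (hf2 x x.2)
    · intro p hp
      obtain ⟨x, y, hxy, hpe⟩ := Finset.card_eq_two.1 p.2.1
      have hx : x ∈ Set.range g := hp (by rw [hpe]; simp)
      have hy : y ∈ Set.range g := hp (by rw [hpe]; simp)
      obtain ⟨s, rfl⟩ := hx
      obtain ⟨t, rfl⟩ := hy
      have hst : s ≠ t := fun h => hxy (by rw [h])
      rcases lt_or_gt_of_ne hst with h | h
      · rw [hc' (f s) (f t) (hf1 s.2 t.2 h).ne (hf2 _ s.2) (hf2 _ t.2) p hpe]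
        exact hf3 _ _ h t.2
      · rw [hc' (f t) (f s) (hf1 t.2 s.2 h).ne (hf2 _ t.2) (hf2 _ s.2) p (by rw [hpe, Finset.pair_comm])]
        exact hf3 _ _ h s.2
  · right
    obtain ⟨j, rfl⟩ := Fin.exists_succ_eq.2 hi
    have hb : b < A := hbd.trans hd
    have ha : a < A := hab.trans hb
    let g : Fin 3 → Ordinal.{u} := ![Ordinal.lift.{u, 0} a, Ordinal.lift.{u, 0} b, Ordinal.lift.{u, 0} d]
    have hg : StrictMono g := by
      rw [Fin.strictMono_iff_lt_succ]
      intro i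
      fin_cases i
      · exact Ordinal.lift_lt.2 hab
      · exact Ordinal.lift_lt.2 hbd
    have iso3 : Nonempty (Set.Iio (3 : Ordinal.{u}) ≃o Fin 3) := by
      let m : Fin 3 → Set.Iio (3 : Ordinal.{u}) := fun i => ⟨(i.val : Ordinal.{u}), by
        have h1 : ((i.val : ℕ) : Ordinal.{u}) < ((3 : ℕ) : Ordinal.{u}) := Nat.cast_lt.2 i.isLt
        simpa using h1⟩
      have hm : StrictMono m := by
        intro x y hxy
        have h1 : ((x.val : ℕ) : Ordinal.{u}) < ((y.val : ℕ) : Ordinal.{u}) := Nat.cast_lt.2 hxy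
        exact h1
      have hms : Function.Surjective m := by
        rintro ⟨y, hy⟩
        have hy' : y < ((3 : ℕ) : Ordinal.{u}) := by simpa using hy
        obtain ⟨n, rfl⟩ := Ordinal.lt_omega0.1 (hy'.trans (Ordinal.nat_lt_omega0 3))
        exact ⟨⟨n, Nat.cast_lt.1 hy'⟩, rfl⟩
      exact ⟨(StrictMono.orderIsoOfSurjective m hm hms).symm⟩
    obtain ⟨iso⟩ := iso3
    refine ⟨j, Set.range g, ?_, ⟨iso.trans (StrictMono.orderIso g hg)⟩, ?_⟩
    · rintro _ ⟨i, rfl⟩
      fin_cases i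
      · exact Ordinal.lift_lt.2 ha
      · exact Ordinal.lift_lt.2 hb
      · exact Ordinal.lift_lt.2 hd
    · intro p hp
      obtain ⟨x, y, hxy, hpe⟩ := Finset.card_eq_two.1 p.2.1
      have hx : x ∈ Set.range g := hp (by rw [hpe]; simp)
      have hy : y ∈ Set.range g := hp (by rw [hpe]; simp)
      obtain ⟨s, rfl⟩ := hx
      obtain ⟨t, rfl⟩ := hy
      have had : a ≠ d := (hab.trans hbd).ne
      fin_cases s <;> fin_cases t
      · exact absurd rfl hxy
      · rw [hc' a b hab.ne ha hb p hpe]; exact e1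
      · rw [hc' a d had ha hd p hpe]; exact e2
      · rw [hc' a b hab.ne ha hb p (by rw [hpe, Finset.pair_comm]; rfl)]; exact e1
      · exact absurd rfl hxy
      · rw [hc' b d hbd.ne hb hd p hpe]; exact e3
      · rw [hc' a d had ha hd p (by rw [hpe, Finset.pair_comm]; rfl)]; exact e2
      · rw [hc' b d hbd.ne hb hd p (by rw [hpe, Finset.pair_comm]; rfl)]; exact e3
      · exact absurd rfl hxy

end Pool.Agent.Results.MP_17bc6d_lc.PartitionRelation
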